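import Pool.Agent.helper93.TV.Spec2

/-! TV, row PO: the flat variety is the zero set of one polynomial of small degree. -/

namespace Pool.Agent.helper93.TV

open BigOperators Finset Matrix

namespace POx

section pol

variable {ι : Type}

/-- The function g is given by a complex polynomial of total degree at most d. -/
def Pl (d : ℕ) (g : (ι → ℝ) → ℂ) : Prop :=
  ∃ P Q : MvPolynomial ι ℝ, P.totalDegree ≤ d ∧ Q.totalDegree ≤ d ∧
    ∀ x, g x = ⟨MvPolynomial.eval x P, MvPolynomial.eval x Q⟩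

theorem Pl.const (z : ℂ) : Pl (ι := ι) 0 (fun _ => z) :=
  ⟨MvPolynomial.C z.re, MvPolynomial.C z.im, by simp, by simp, fun x => by simp⟩

theorem Pl.mono {d d' : ℕ} (h : d ≤ d') {g : (ι → ℝ) → ℂ} (hg : Pl d g) : Pl d' g := by
  obtain ⟨P, Q, hP, hQ, hx⟩ := hg
  exact ⟨P, Q, hP.trans h, hQ.trans h, hx⟩

theorem Pl.add {d : ℕ} {g h : (ι → ℝ) → ℂ} (hg : Pl d g) (hh : Pl d h) :
    Pl d (fun x => g x + h x) := by
  obtain ⟨P, Q, hP, hQ, hx⟩ := hg
  obtain ⟨P', Q', hP', hQ', hx'⟩ := hh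
  refine ⟨P + P', Q + Q', (MvPolynomial.totalDegree_add _ _).trans (max_le hP hP'),
    (MvPolynomial.totalDegree_add _ _).trans (max_le hQ hQ'), fun x => ?_⟩
  show g x + h x = _
  rw [hx, hx']
  apply Complex.ext <;> simp

theorem Pl.mul {d d' : ℕ} {g h : (ι → ℝ) → ℂ} (hg : Pl d g) (hh : Pl d' h) :
    Pl (d + d') (fun x => g x * h x) := by
  obtain ⟨P, Q, hP, hQ, hx⟩ := hg
  obtain ⟨P', Q', hP', hQ', hx'⟩ := hh
  have key : ∀ A B : MvPolynomial ι ℝ, A.totalDegree ≤ d → B.totalDegree ≤ d' →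
      (A * B).totalDegree ≤ d + d' := fun A B hA hB =>
    (MvPolynomial.totalDegree_mul _ _).trans (Nat.add_le_add hA hB)
  refine ⟨P * P' - Q * Q', P * Q' + Q * P',
    (MvPolynomial.totalDegree_sub _ _).trans (max_le (key _ _ hP hP') (key _ _ hQ hQ')),
    (MvPolynomial.totalDegree_add _ _).trans (max_le (key _ _ hP hQ') (key _ _ hQ hP')),
    fun x => ?_⟩
  show g x * h x = _
  rw [hx, hx']
  apply Complex.ext <;> simp

theorem Pl.star {d : ℕ} {g : (ι → ℝ) → ℂ} (hg : Pl d g) : Pl d (fun x => star (g x)) := by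
  obtain ⟨P, Q, hP, hQ, hx⟩ := hg
  refine ⟨P, -Q, hP, by rw [MvPolynomial.totalDegree_neg]; exact hQ, fun x => ?_⟩
  show Star.star (g x) = _
  rw [hx]
  apply Complex.ext <;> simp

theorem Pl.cmul {d : ℕ} {g : (ι → ℝ) → ℂ} (hg : Pl d g) (z : ℂ) : Pl d (fun x => z * g x) := by
  have := (Pl.const (ι := ι) z).mul hg
  rwa [Nat.zero_add] at this

theorem Pl.sub {d : ℕ} {g h : (ι → ℝ) → ℂ} (hg : Pl d g) (hh : Pl d h) :
    Pl d (fun x => g x - h x) := by
  have := hg.add (hh.cmul (-1))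
  simpa [sub_eq_add_neg] using this

theorem Pl.sum {α : Type*} {d : ℕ} (s : Finset α) (g : α → (ι → ℝ) → ℂ)
    (h : ∀ a ∈ s, Pl d (g a)) : Pl d (fun x => ∑ a ∈ s, g a x) := by
  classical
  induction s using Finset.induction_on with
  | empty => simpa using (Pl.const (ι := ι) 0).mono (Nat.zero_le d)
  | insert a s ha ih =>
    have h1 := (h a (Finset.mem_insert_self a s)).add
      (ih fun b hb => h b (Finset.mem_insert_of_mem hb))
    simpa [Finset.sum_insert ha] using h1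

/-- S is the zero set of a nonnegative polynomial of total degree at most 2 d. -/
def Zr (d : ℕ) (S : (ι → ℝ) → Prop) : Prop :=
  ∃ f : MvPolynomial ι ℝ, f.totalDegree ≤ 2 * d ∧ (∀ x, 0 ≤ MvPolynomial.eval x f) ∧
    ∀ x, MvPolynomial.eval x f = 0 ↔ S x

theorem Zr.true (d : ℕ) : Zr (ι := ι) d (fun _ => True) :=
  ⟨0, by simp, fun x => by simp, fun x => by simp⟩

theorem Zr.imp {d : ℕ} {S : (ι → ℝ) → Prop} (P : Prop) (h : P → Zr d S) :
    Zr d (fun x => P → S x) := by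
  by_cases hP : P
  · obtain ⟨f, h1, h2, h3⟩ := h hP
    exact ⟨f, h1, h2, fun x => by rw [h3]; simp [hP]⟩
  · obtain ⟨f, h1, h2, h3⟩ := Zr.true (ι := ι) d
    exact ⟨f, h1, h2, fun x => by rw [h3]; simp [hP]⟩

theorem Zr.and {d : ℕ} {S T : (ι → ℝ) → Prop} (hS : Zr d S) (hT : Zr d T) :
    Zr d (fun x => S x ∧ T x) := by
  obtain ⟨f, h1, h2, h3⟩ := hS
  obtain ⟨g, k1, k2, k3⟩ := hT
  refine ⟨f + g, (MvPolynomial.totalDegree_add _ _).trans (max_le h1 k1), fun x => ?_,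
    fun x => ?_⟩
  · rw [map_add]; exact add_nonneg (h2 x) (k2 x)
  · rw [map_add, add_eq_zero_iff_of_nonneg (h2 x) (k2 x), h3, k3]

theorem Zr.all {α : Type*} {d : ℕ} (s : Finset α) (S : α → (ι → ℝ) → Prop)
    (h : ∀ a ∈ s, Zr d (S a)) : Zr d (fun x => ∀ a ∈ s, S a x) := by
  classical
  induction s using Finset.induction_on with
  | empty =>
    obtain ⟨f, h1, h2, h3⟩ := Zr.true (ι := ι) d
    exact ⟨f, h1, h2, fun x => by rw [h3]; simp⟩
  | insert a s ha ih =>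
    obtain ⟨f, h1, h2, h3⟩ := (h a (Finset.mem_insert_self a s)).and
      (ih fun b hb => h b (Finset.mem_insert_of_mem hb))
    refine ⟨f, h1, h2, fun x => ?_⟩
    rw [h3]
    exact (Finset.forall_mem_insert a s fun b => S b x).symm

theorem Zr.allF {α : Type*} [Fintype α] {d : ℕ} (S : α → (ι → ℝ) → Prop)
    (h : ∀ a, Zr d (S a)) : Zr d (fun x => ∀ a, S a x) := by
  obtain ⟨f, h1, h2, h3⟩ := Zr.all (ι := ι) (univ : Finset α) S fun a _ => h a
  exact ⟨f, h1, h2, fun x => by rw [h3]; simp⟩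

theorem Zr.eq0 {d : ℕ} {g h : (ι → ℝ) → ℂ} (hg : Pl d g) (hh : Pl d h) :
    Zr d (fun x => g x = h x) := by
  obtain ⟨P, Q, hP, hQ, hx⟩ := hg.sub hh
  refine ⟨P ^ 2 + Q ^ 2, (MvPolynomial.totalDegree_add _ _).trans (max_le ?_ ?_), fun x => ?_,
    fun x => ?_⟩
  · exact (MvPolynomial.totalDegree_pow _ _).trans (Nat.mul_le_mul_left 2 hP)
  · exact (MvPolynomial.totalDegree_pow _ _).trans (Nat.mul_le_mul_left 2 hQ)
  · rw [map_add, map_pow, map_pow]; positivity
  · rw [map_add, map_pow, map_pow, add_eq_zero_iff_of_nonneg (sq_nonneg _) (sq_nonneg _),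
      sq_eq_zero_iff, sq_eq_zero_iff]
    have hx1 : g x - h x = ⟨MvPolynomial.eval x P, MvPolynomial.eval x Q⟩ := hx x
    show _ ↔ g x = h x
    constructor
    · rintro ⟨h1, h2⟩
      rw [h1, h2] at hx1
      exact sub_eq_zero.1 hx1
    · intro h0
      rw [h0, sub_self] at hx1
      exact ⟨(congrArg Complex.re hx1).symm, (congrArg Complex.im hx1).symm⟩

end pol

variable {I V : Type} [Fintype I] [DecidableEq I] [Fintype V] [DecidableEq V]

theorem cof_pl (D : FD I V) (X : Finset I) (l e e' l' : V) :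
    Pl 1 (fun x : D.Q X × Bool → ℝ => D.cof X x l e e' l') := by
  classical
  by_cases h : D.cp l e e' l' ∧ D.s1 l ∈ X ∧ D.s2 e ∈ X
  · refine ⟨MvPolynomial.X (⟨(l, e, e', l'), h⟩, false), MvPolynomial.X (⟨(l, e, e', l'), h⟩, true),
      ?_, ?_, fun x => ?_⟩
    · rw [MvPolynomial.totalDegree_X]
    · rw [MvPolynomial.totalDegree_X]
    · simp only [FD.cof, dif_pos h, MvPolynomial.eval_X]
  · have h1 : (fun x : D.Q X × Bool → ℝ => D.cof X x l e e' l') = fun _ => 0 := by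
      funext x
      simp only [FD.cof, dif_neg h]
    rw [h1]
    exact (Pl.const 0).mono (Nat.zero_le 1)

theorem tp_pl (D : FD I V) (X : Finset I) (l l' : V) (p p' : List V) :
    Pl p.length (fun x : D.Q X × Bool → ℝ => tp (D.cof X x) l p p' l') := by
  induction p generalizing l p' with
  | nil => cases p' with
    | nil =>
      simp only [tp_nil, List.length_nil]
      exact Pl.const _
    | cons e' p' =>
      simp only [tp_nil_cons, List.length_nil]
      exact Pl.const _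
  | cons e p ih => cases p' with
    | nil =>
      simp only [tp_cons_nil]
      exact (Pl.const 0).mono (Nat.zero_le _)
    | cons e' p' =>
      simp only [tp_cons]
      refine Pl.sum _ _ fun l'' _ => ?_
      have := (cof_pl D X l e e' l'').mul (ih l'' p')
      exact this.mono (by rw [List.length_cons]; omega)

theorem iter_pl (D : FD I V) (X : Finset I) (n n' : ℕ) (T : List V → List V → ℂ) (k : ℕ)
    (b : I) (p q : List V) (hp : p ∈ lists V n) (hq : q ∈ lists V n') :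
    Pl (k * (n + n')) (fun x : D.Q X × Bool → ℝ => D.iter X (D.cof X x) n n' T k b p q) := by
  induction k generalizing b p q with
  | zero =>
    simp only [FD.iter]
    exact (Pl.const _).mono (Nat.zero_le _)
  | succ k ih =>
    simp only [FD.iter, FD.step]
    refine Pl.sum _ _ fun l _ => Pl.sum _ _ fun p' hp' => Pl.sum _ _ fun q' hq' =>
      Pl.sum _ _ fun l' _ => ?_
    have h1 := ((tp_pl D X l l' p p').mul (ih (D.s2 l) p' q' hp' hq')).mul
      (tp_pl D X l l' q q').star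
    refine h1.mono ?_
    rw [mem_lists.1 hp, mem_lists.1 hq, Nat.succ_mul]
    omega

theorem Phi_pl (D : FD I V) (X : Finset I) (m n n' : ℕ) (T : List V → List V → ℂ)
    (b : I) (p q : List V) (hp : p ∈ lists V n) (hq : q ∈ lists V n') :
    Pl (m * (n + n')) (fun x : D.Q X × Bool → ℝ => D.Phi X (D.cof X x) m n n' T b p q) := by
  have h1 := (iter_pl D X n n' T m b p q hp hq).cmul ((D.cnt X m b : ℂ)⁻¹)
  have h2 : (fun x : D.Q X × Bool → ℝ => D.Phi X (D.cof X x) m n n' T b p q) =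
      fun x => (D.cnt X m b : ℂ)⁻¹ * D.iter X (D.cof X x) n n' T m b p q := by
    funext x
    rw [FD.Phi, div_eq_inv_mul]
  rw [h2]
  exact h1

/-- Supports of the iterated averages. -/
theorem iter_supp (D : FD I V) (X : Finset I) (c : V → V → V → V → ℂ) (hc : D.Conn X c)
    (n n' : ℕ) (T : List V → List V → ℂ) (hT : D.Op X n n' T) (k : ℕ) (b : I) (p q : List V)
    (h : D.iter X c n n' T k b p q ≠ 0) :
    p ∈ lists V n ∧ q ∈ lists V n' ∧ D.ok X b p ∧ D.ok X b q ∧ D.en b p = D.en b q := by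
  cases k with
  | zero =>
    simp only [FD.iter] at h
    by_cases hb : b = D.o
    · rw [if_pos hb] at h
      rw [hb]
      exact hT p q h
    · rw [if_neg hb] at h
      exact absurd rfl h
  | succ k =>
    simp only [FD.iter, FD.step] at h
    obtain ⟨l, hl, h1⟩ := Finset.exists_ne_zero_of_sum_ne_zero h
    obtain ⟨p', hp', h2⟩ := Finset.exists_ne_zero_of_sum_ne_zero h1
    obtain ⟨q', hq', h3⟩ := Finset.exists_ne_zero_of_sum_ne_zero h2
    obtain ⟨l', _, h4⟩ := Finset.exists_ne_zero_of_sum_ne_zero h3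
    rw [Finset.mem_filter] at hl
    have h5 := left_ne_zero_of_mul (left_ne_zero_of_mul h4)
    have h6 : tp c l q q' l' ≠ 0 := by
      have := right_ne_zero_of_mul h4
      intro h0
      exact this (by rw [h0, star_zero])
    obtain ⟨a1, -, -, -, a5, -⟩ := tp_supp D X c hc _ _ _ _ h5
    obtain ⟨b1, -, -, -, b5, -⟩ := tp_supp D X c hc _ _ _ _ h6
    rw [hl.2.2] at a1 a5 b1 b5
    refine ⟨?_, ?_, a1, b1, a5.symm.trans b5⟩
    · rw [mem_lists, tp_length _ _ _ _ _ h5]; exact mem_lists.1 hp'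
    · rw [mem_lists, tp_length _ _ _ _ _ h6]; exact mem_lists.1 hq'

theorem Phi_supp (D : FD I V) (X : Finset I) (c : V → V → V → V → ℂ) (hc : D.Conn X c)
    (m n n' : ℕ) (T : List V → List V → ℂ) (hT : D.Op X n n' T) (b : I) (p q : List V)
    (h : D.Phi X c m n n' T b p q ≠ 0) :
    p ∈ lists V n ∧ q ∈ lists V n' ∧ D.ok X b p ∧ D.ok X b q ∧ D.en b p = D.en b q := by
  refine iter_supp D X c hc n n' T hT m b p q fun h0 => h ?_
  rw [FD.Phi, h0, zero_div]

theorem cof_supp (D : FD I V) (X : Finset I) (x : D.Q X × Bool → ℝ) (l e e' l' : V)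
    (h : D.cof X x l e e' l' ≠ 0) : D.cp l e e' l' ∧ D.s1 l ∈ X ∧ D.s2 e ∈ X := by
  by_contra h1
  exact h (by simp only [FD.cof, dif_neg h1])

/-- The finite system of equations. -/
def Sy (D : FD I V) (X : Finset I) (m : ℕ) (x : D.Q X × Bool → ℝ) : Prop :=
  ((∀ l e l₁ e₁, D.t l = D.s1 e → D.s1 l ∈ X → D.s2 e ∈ X →
      ∑ e', ∑ l', D.cof X x l e e' l' * star (D.cof X x l₁ e₁ e' l') =
        if l = l₁ ∧ e = e₁ then 1 else 0) ∧
    ∀ e' l' e₁ l₁, D.t e' = D.s2 l' → D.s1 l' ∈ X → D.s2 e' ∈ X →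
      ∑ l, ∑ e, star (D.cof X x l e e' l') * D.cof X x l e e₁ l₁ =
        if e' = e₁ ∧ l' = l₁ then 1 else 0) ∧
  ∀ n ∈ range (3 * m + 1), ∀ n' ∈ range (3 * m + 1), ∀ p₀ ∈ lists V n, ∀ q₀ ∈ lists V n',
    D.Op X n n' (mu p₀ q₀) →
    (∀ l, ∀ p ∈ lists V n, ∀ q' ∈ lists V n', ∀ l', D.s1 l ∈ X →
      ∑ q ∈ lists V n', D.Phi X (D.cof X x) m n n' (mu p₀ q₀) (D.t l) p q *
        tp (D.cof X x) l q q' l' =
      ∑ p' ∈ lists V n, tp (D.cof X x) l p p' l' *
        D.Phi X (D.cof X x) m n n' (mu p₀ q₀) (D.s2 l) p' q') ∧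
    ∀ p ∈ lists V n, ∀ q ∈ lists V n',
      D.Phi X (D.cof X x) m n n' (mu p₀ q₀) D.o p q = mu p₀ q₀ p q

theorem Sy_zr (D : FD I V) (X : Finset I) (m : ℕ) : Zr (6 * m ^ 2 + 3 * m + 2) (Sy D X m) := by
  have h2 : 2 ≤ 6 * m ^ 2 + 3 * m + 2 := by omega
  have h3 : ∀ n ∈ range (3 * m + 1), ∀ n' ∈ range (3 * m + 1),
      m * (n + n') + max n n' ≤ 6 * m ^ 2 + 3 * m + 2 := by
    intro n hn n' hn'
    rw [Finset.mem_range] at hn hn'
    have h4 : n + n' ≤ 6 * m := by omega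
    have h5 : max n n' ≤ 3 * m := max_le (by omega) (by omega)
    have h6 : m * (n + n') ≤ m * (6 * m) := Nat.mul_le_mul_left m h4
    have h7 : m * (6 * m) = 6 * m ^ 2 := by ring
    omega
  unfold Sy
  refine Zr.and (Zr.and ?_ ?_) ?_
  · refine Zr.allF _ fun l => Zr.allF _ fun e => Zr.allF _ fun l₁ => Zr.allF _ fun e₁ =>
      Zr.imp _ fun _ => Zr.imp _ fun _ => Zr.imp _ fun _ => Zr.eq0 ?_ ?_
    · refine Pl.sum _ _ fun e' _ => Pl.sum _ _ fun l' _ => ?_
      exact ((cof_pl D X l e e' l').mul (cof_pl D X l₁ e₁ e' l').star).mono h2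
    · exact (Pl.const _).mono (Nat.zero_le _)
  · refine Zr.allF _ fun e' => Zr.allF _ fun l' => Zr.allF _ fun e₁ => Zr.allF _ fun l₁ =>
      Zr.imp _ fun _ => Zr.imp _ fun _ => Zr.imp _ fun _ => Zr.eq0 ?_ ?_
    · refine Pl.sum _ _ fun l _ => Pl.sum _ _ fun e _ => ?_
      exact ((cof_pl D X l e e' l').star.mul (cof_pl D X l e e₁ l₁)).mono h2
    · exact (Pl.const _).mono (Nat.zero_le _)
  · refine Zr.all _ _ fun n hn => Zr.all _ _ fun n' hn' => Zr.all _ _ fun p₀ _ =>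
      Zr.all _ _ fun q₀ _ => Zr.imp _ fun _ => Zr.and ?_ ?_
    · refine Zr.allF _ fun l => Zr.all _ _ fun p hp => Zr.all _ _ fun q' hq' =>
        Zr.allF _ fun l' => Zr.imp _ fun _ => Zr.eq0 ?_ ?_
      · refine Pl.sum _ _ fun q hq => ?_
        have h8 := (Phi_pl D X m n n' (mu p₀ q₀) (D.t l) p q hp hq).mul (tp_pl D X l l' q q')
        refine h8.mono ((Nat.add_le_add_left ?_ _).trans (h3 n hn n' hn'))
        rw [mem_lists.1 hq]
        exact le_max_right _ _
      · refine Pl.sum _ _ fun p' hp' => ?_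
        have h8 := (tp_pl D X l l' p p').mul (Phi_pl D X m n n' (mu p₀ q₀) (D.s2 l) p' q' hp' hq')
        refine h8.mono (le_trans ?_ (h3 n hn n' hn'))
        rw [mem_lists.1 hp, Nat.add_comm]
        exact Nat.add_le_add_left (le_max_left _ _) _
    · refine Zr.all _ _ fun p hp => Zr.all _ _ fun q hq => Zr.eq0 ?_ ?_
      · refine (Phi_pl D X m n n' (mu p₀ q₀) D.o p q hp hq).mono (le_trans ?_ (h3 n hn n' hn'))
        exact Nat.le_add_right _ _
      · exact (Pl.const _).mono (Nat.zero_le _)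

theorem Sy_iff (D : FD I V) (X : Finset I) (m : ℕ) (x : D.Q X × Bool → ℝ) :
    Sy D X m x ↔ D.Flat X (D.cof X x) m := by
  constructor
  · rintro ⟨⟨h1, h2⟩, h3⟩
    have hc : D.Conn X (D.cof X x) := ⟨fun l e e' l' h => cof_supp D X x l e e' l' h, h1, h2⟩
    refine ⟨hc, fun n hn n' hn' p₀ q₀ hop => ?_⟩
    obtain ⟨hp₀, hq₀, -, -, -⟩ := hop p₀ q₀ (by simp [mu])
    obtain ⟨h4, h5⟩ := h3 n (Finset.mem_range.2 (by omega)) n' (Finset.mem_range.2 (by omega))
      p₀ hp₀ q₀ hq₀ hop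
    refine ⟨⟨fun a p q h => Phi_supp D X _ hc m n n' _ hop a p q h, fun l p q' l' hl hp hq' =>
      h4 l p hp q' hq' l' hl⟩, ?_⟩
    funext p q
    by_cases hpq : p ∈ lists V n ∧ q ∈ lists V n'
    · exact h5 p hpq.1 q hpq.2
    · have h6 : D.Phi X (D.cof X x) m n n' (mu p₀ q₀) D.o p q = 0 := by
        by_contra h0
        obtain ⟨k1, k2, -, -, -⟩ := Phi_supp D X _ hc m n n' _ hop D.o p q h0
        exact hpq ⟨k1, k2⟩
      have h7 : mu p₀ q₀ p q = 0 := by
        rw [mu, if_neg]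
        rintro ⟨rfl, rfl⟩
        exact hpq ⟨hp₀, hq₀⟩
      rw [h6, h7]
  · intro h
    refine ⟨⟨h.conn.row, h.conn.col⟩, fun n hn n' hn' p₀ _ q₀ _ hop => ?_⟩
    rw [Finset.mem_range] at hn hn'
    obtain ⟨h4, h5⟩ := h.flat n (by omega) n' (by omega) p₀ q₀ hop
    exact ⟨fun l p hp q' hq' l' hl => h4.fl l p q' l' hl hp hq', fun p _ q _ => by rw [h5]⟩

end POx

/-- Row PO. -/
theorem PO : PO_stmt := by
  intro I V _ _ _ _ D X m
  obtain ⟨f, h1, h2, h3⟩ := POx.Sy_zr D X m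
  refine ⟨f, by omega, h2, fun x => ?_⟩
  rw [h3, POx.Sy_iff]
  rfl

end Pool.Agent.helper93.TV
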